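import Mathlib
import Pool.Agent.Helper270.WPSource

/-!
A two-counter machine in an associative algebra: the relations, and the proof that the word of a
configuration from which the machine halts is zero.
-/

set_option autoImplicit false

namespace Pool.Agent.T6.H41.EP

open Pool.Agent.Helper270.WPSource

/-- the letters: `A, Z, a, c, b, d` and the states -/
abbrev Gn (Q : Type) (B : ℕ) : Type := Fin 6 ⊕ (Q ⊕ Q × (Bool → Fin B))

section

variable {Q : Type} (M : Sys Q Bool)

/-- the left end marker -/
abbrev lA : Gn Q M.B := Sum.inl 0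
/-- the right end marker -/
abbrev lZ : Gn Q M.B := Sum.inl 1
/-- first counter -/
abbrev la : Gn Q M.B := Sum.inl 2
/-- second counter -/
abbrev lc : Gn Q M.B := Sum.inl 3
/-- first auxiliary counter -/
abbrev lb : Gn Q M.B := Sum.inl 4
/-- second auxiliary counter -/
abbrev ld : Gn Q M.B := Sum.inl 5
/-- states of the first phase -/
abbrev lx (q : Q) : Gn Q M.B := Sum.inr (Sum.inl q)
/-- states of the second phase -/
abbrev ly (q : Q) (ρ : Bool → Fin M.B) : Gn Q M.B := Sum.inr (Sum.inr (q, ρ))

/-- the relations of the machine -/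
structure Rels {T : Type*} [Ring T] (g : Gn Q M.B → T) : Prop where
  ac : g (la M) * g (lc M) = g (lc M) * g (la M)
  r1 : ∀ q, g (la M) ^ M.B * g (lx M q) = g (lx M q) * g (lb M)
  r2 : ∀ q, g (lc M) ^ M.B * g (lx M q) = g (lx M q) * g (ld M)
  r3 : ∀ q ρ, g (lA M) * (g (lc M) ^ (ρ false : ℕ) * (g (la M) ^ (ρ true : ℕ) * g (lx M q)))
    = g (lA M) * g (ly M q ρ)
  r4 : ∀ q ρ, g (ly M q ρ) * g (lb M) = g (la M) ^ M.a q ρ true * g (ly M q ρ)
  r5 : ∀ q ρ, g (ly M q ρ) * g (ld M) = g (lc M) ^ M.a q ρ false * g (ly M q ρ)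
  r6 : ∀ q ρ q', M.nxt q ρ = some q' → g (ly M q ρ) * g (lZ M)
    = g (la M) ^ M.b q ρ true * (g (lc M) ^ M.b q ρ false * (g (lx M q') * g (lZ M)))
  r7 : ∀ q ρ, M.nxt q ρ = none → g (ly M q ρ) * g (lZ M) = 0

variable {M}

theorem pow_move {T : Type*} [Ring T] {u x w : T} (h : u * x = x * w) (k : ℕ) :
    u ^ k * x = x * w ^ k := by
  induction k with
  | zero => simp
  | succ k ih =>
    rw [pow_succ, mul_assoc, h, ← mul_assoc, ih, mul_assoc, ← pow_succ]

theorem Rels.halts {T : Type*} [Ring T] {g : Gn Q M.B → T} (R : Rels M g) :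
    ∀ (o : Option Q) (n : Bool → ℕ), M.Halts o n → ∀ q, o = some q →
      g (lA M) * (g (la M) ^ n true * (g (lc M) ^ n false * (g (lx M q) * g (lZ M)))) = 0 := by
  intro o n h
  induction h with
  | stop n => intro q hq; cases hq
  | step q n hh ih =>
    intro q1 hq1
    obtain rfl : q = q1 := by simpa using hq1
    set A := g (lA M) with hA
    set a := g (la M) with ha
    set c := g (lc M) with hc
    set b := g (lb M) with hb
    set d := g (ld M) with hd
    set Z := g (lZ M) with hZ
    set x := g (lx M q) with hx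
    set ρ := M.res n with hρ
    set y := g (ly M q ρ) with hy
    have hac : Commute a c := R.ac
    -- first phase
    have e1 : n true = (ρ true : ℕ) + M.B * (n true / M.B) := by
      rw [hρ]; exact (Nat.mod_add_div _ _).symm
    have e2 : n false = (ρ false : ℕ) + M.B * (n false / M.B) := by
      rw [hρ]; exact (Nat.mod_add_div _ _).symm
    set k := n true / M.B with hk
    set l := n false / M.B with hl
    have p2 : c ^ n false * x = c ^ (ρ false : ℕ) * x * d ^ l := by
      rw [e2, pow_add, pow_mul, mul_assoc, pow_move (R.r2 q), ← mul_assoc]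
    have p1 : a ^ n true * x = a ^ (ρ true : ℕ) * x * b ^ k := by
      rw [e1, pow_add, pow_mul, mul_assoc, pow_move (R.r1 q), ← mul_assoc]
    have f1 : A * (a ^ n true * (c ^ n false * (x * Z))) = A * y * b ^ k * d ^ l * Z := by
      calc A * (a ^ n true * (c ^ n false * (x * Z)))
          = A * (a ^ n true * (c ^ n false * x)) * Z := by simp only [mul_assoc]
        _ = A * (a ^ n true * (c ^ (ρ false : ℕ) * x * d ^ l)) * Z := by rw [p2]
        _ = A * ((a ^ n true * c ^ (ρ false : ℕ)) * x * d ^ l) * Z := by simp only [mul_assoc]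
        _ = A * ((c ^ (ρ false : ℕ) * a ^ n true) * x * d ^ l) * Z := by
            rw [(hac.pow_pow _ _).eq]
        _ = A * (c ^ (ρ false : ℕ) * (a ^ n true * x) * d ^ l) * Z := by simp only [mul_assoc]
        _ = A * (c ^ (ρ false : ℕ) * (a ^ (ρ true : ℕ) * x * b ^ k) * d ^ l) * Z := by rw [p1]
        _ = A * (c ^ (ρ false : ℕ) * (a ^ (ρ true : ℕ) * x)) * b ^ k * d ^ l * Z := by
            simp only [mul_assoc]
        _ = A * y * b ^ k * d ^ l * Z := by rw [R.r3 q ρ]
    -- second phase
    have f2 : A * y * b ^ k * d ^ l * Z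
        = A * a ^ (M.a q ρ true * k) * c ^ (M.a q ρ false * l) * (y * Z) := by
      have g1 : y * b ^ k = a ^ (M.a q ρ true * k) * y := by
        rw [pow_mul, pow_move (R.r4 q ρ).symm]
      have g2 : y * d ^ l = c ^ (M.a q ρ false * l) * y := by
        rw [pow_mul, pow_move (R.r5 q ρ).symm]
      calc A * y * b ^ k * d ^ l * Z = A * (y * b ^ k) * d ^ l * Z := by simp only [mul_assoc]
        _ = A * a ^ (M.a q ρ true * k) * (y * d ^ l) * Z := by rw [g1]; simp only [mul_assoc]
        _ = _ := by rw [g2]; simp only [mul_assoc]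
    rw [f1, f2]
    cases hn : M.nxt q ρ with
    | none => rw [R.r7 q ρ hn, mul_zero]
    | some q' =>
      rw [R.r6 q ρ q' hn]
      have h3 := ih q' hn
      have n1 : M.nn q n true = M.a q ρ true * k + M.b q ρ true := rfl
      have n2 : M.nn q n false = M.a q ρ false * l + M.b q ρ false := rfl
      rw [n1, n2, pow_add, pow_add] at h3
      rw [← h3]
      have hcm : c ^ (M.a q ρ false * l) * a ^ M.b q ρ true
          = a ^ M.b q ρ true * c ^ (M.a q ρ false * l) := (hac.pow_pow _ _).eq.symm
      calc A * a ^ (M.a q ρ true * k) * c ^ (M.a q ρ false * l)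
            * (a ^ M.b q ρ true * (c ^ M.b q ρ false * (g (lx M q') * Z)))
          = A * a ^ (M.a q ρ true * k) * (c ^ (M.a q ρ false * l) * a ^ M.b q ρ true)
            * (c ^ M.b q ρ false * (g (lx M q') * Z)) := by simp only [mul_assoc]
        _ = A * a ^ (M.a q ρ true * k) * (a ^ M.b q ρ true * c ^ (M.a q ρ false * l))
            * (c ^ M.b q ρ false * (g (lx M q') * Z)) := by rw [hcm]
        _ = _ := by simp only [mul_assoc]

end

end Pool.Agent.T6.H41.EP
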