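import Mathlib
import Pool.Agent.H682R2.StdTri
import Pool.Agent.Y555.Mag.Ext

/-!
Lower triangular `4 × 4` matrices whose first and last diagonal entries agree: they satisfy the
standard identities `s_n`, `n ≥ 6`, and the identities of the `d × d` matrices, `d ≥ 3`.
(Adapted from the files for `5 × 5` matrices of this repository.)
-/

set_option autoImplicit false

namespace Pool.Agent.T6.H41.EP

open Pool.Agent.H682R2.StdNil Pool.Agent.H682R2.StdTri
open Pool.Agent.Y555.Mag.Ext (generic mat_ext)

section tri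

variable {R : Type*} [CommRing R]

/-- depth of a lower triangular matrix -/
def Dq (d : ℕ) (A : Matrix (Fin 4) (Fin 4) R) : Prop := ∀ i j : Fin 4, (i : ℕ) < j + d → A i j = 0

theorem Dq.mul {d e : ℕ} {A B : Matrix (Fin 4) (Fin 4) R} (hA : Dq d A) (hB : Dq e B) :
    Dq (d + e) (A * B) := by
  intro i j h
  rw [Matrix.mul_apply]
  refine Finset.sum_eq_zero fun k _ => ?_
  by_cases h1 : (i : ℕ) < k + d
  · rw [hA i k h1, zero_mul]
  · rw [hB k j (by omega), mul_zero]

theorem Dq.prod {n : ℕ} (f : Fin n → Matrix (Fin 4) (Fin 4) R) (d : Fin n → ℕ)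
    (h : ∀ i, Dq (d i) (f i)) : Dq (∑ i, d i) (List.ofFn f).prod := by
  induction n with
  | zero =>
    intro i j hij
    simp only [Finset.univ_eq_empty, Finset.sum_empty, add_zero] at hij
    rw [List.ofFn_zero, List.prod_nil, Matrix.one_apply_ne]
    intro h; subst h; omega
  | succ n ih =>
    rw [List.ofFn_succ, List.prod_cons, Fin.sum_univ_succ]
    exact (h 0).mul (ih _ _ fun i => h i.succ)

theorem eq_zero_of_Dq {A : Matrix (Fin 4) (Fin 4) R} {d : ℕ} (h : Dq d A) (hd : 4 ≤ d) : A = 0 := by
  ext i j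
  exact h i j (by have := i.2; omega)

theorem std_eq_zero_of_depth4 {n : ℕ} (y : Fin n → Matrix (Fin 4) (Fin 4) R) (d : Fin n → ℕ)
    (h : ∀ i, Dq (d i) (y i)) (hd : 4 ≤ ∑ i, d i) : std y = 0 := by
  unfold std
  refine Finset.sum_eq_zero fun σ _ => ?_
  have h1 := Dq.prod (fun i => y (σ i)) (fun i => d (σ i)) fun i => h _
  rw [eq_zero_of_Dq h1, smul_zero]
  rw [Equiv.sum_comp σ d]
  exact hd

/-- the matrices: lower triangular with equal first and last diagonal entry -/
structure Tri4 (A : Matrix (Fin 4) (Fin 4) R) : Prop where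
  low : Dq 0 A
  eq : A 0 0 = A 3 3

theorem Tri4.apply {A : Matrix (Fin 4) (Fin 4) R} (h : Tri4 A) {i j : Fin 4} (hij : i < j) :
    A i j = 0 := h.low i j (by simpa using hij)

/-- the idempotent `E_00 + E_33` -/
def e03 (R : Type*) [CommRing R] : Matrix (Fin 4) (Fin 4) R :=
  Matrix.single 0 0 1 + Matrix.single 3 3 1

/-- the components of a matrix -/
def comp4 (A : Matrix (Fin 4) (Fin 4) R) (k : Fin 4) : Matrix (Fin 4) (Fin 4) R :=
  if k = 3 then Matrix.of fun i j => if j < i then A i j else 0
  else if k = 0 then A 0 0 • e03 R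
  else A k k • Matrix.single k k 1

theorem comp4_sum {A : Matrix (Fin 4) (Fin 4) R} (h : Tri4 A) : ∑ k, comp4 A k = A := by
  have h33 := h.eq
  ext i j
  have hl : ∀ i j : Fin 4, i < j → A i j = 0 := fun i j hij => h.low i j (by simpa using hij)
  rw [Matrix.sum_apply, Fin.sum_univ_four]
  fin_cases i <;> fin_cases j <;>
    simp [comp4, e03, Matrix.single_apply, Matrix.add_apply, h33, hl]

theorem comp4_last_depth (A : Matrix (Fin 4) (Fin 4) R) : Dq 1 (comp4 A 3) := by
  intro i j h
  simp only [comp4, if_true, Matrix.of_apply]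
  rw [if_neg]
  intro h2
  have : (j : ℕ) < i := h2
  omega

theorem comp4_depth (A : Matrix (Fin 4) (Fin 4) R) (k : Fin 4) : Dq 0 (comp4 A k) := by
  intro i j h
  have hij : i ≠ j := by rintro rfl; omega
  have hji : ¬ (j < i) := by
    intro h2
    have : (j : ℕ) < i := h2
    omega
  unfold comp4
  split_ifs with h1 h2
  · simp [hji]
  · have a : ¬ ((0 : Fin 4) = i ∧ (0 : Fin 4) = j) := by rintro ⟨rfl, rfl⟩; exact hij rfl
    have b : ¬ ((3 : Fin 4) = i ∧ (3 : Fin 4) = j) := by rintro ⟨rfl, rfl⟩; exact hij rfl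
    simp only [e03, Matrix.smul_apply, Matrix.add_apply, Matrix.single_apply, a, b, if_false,
      add_zero, smul_zero]
  · have a : ¬ (k = i ∧ k = j) := by rintro ⟨rfl, rfl⟩; exact hij rfl
    simp only [Matrix.smul_apply, Matrix.single_apply, a, if_false, smul_zero]

/-- the key case: one component of each of the types `0, 1, 2` -/
theorem std_key4 {n : ℕ} (hn : Even n) (v : Fin n → Matrix (Fin 4) (Fin 4) R)
    (A : Fin 3 → R) (ι : Fin 3 → Fin n) (hι : Function.Injective ι)
    (h0 : v (ι 0) = A 0 • e03 R)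
    (h1 : ∀ k : Fin 3, k ≠ 0 → v (ι k) = A k • Matrix.single (k.castSucc) (k.castSucc) 1) :
    std v = 0 := by
  have e : e03 R = 1 - Matrix.single 1 1 1 - Matrix.single 2 2 1 := by
    ext i j
    fin_cases i <;> fin_cases j <;>
      simp [e03, Matrix.single_apply]
  have hv : v = Function.update v (ι 0) (A 0 • e03 R) := by
    rw [← h0]; simp
  have key : ∀ k : Fin 3, k ≠ 0 →
      stdAlt R (Matrix (Fin 4) (Fin 4) R) n
        (Function.update v (ι 0) (Matrix.single k.castSucc k.castSucc 1)) = 0 := by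
    intro k hk
    rw [stdAlt_apply]
    have hne : ι k ≠ ι 0 := fun h => hk (hι h)
    refine std_eq_zero_of_swap _ hne.symm fun x => ?_
    rw [Function.update_self, Function.update_of_ne hne, h1 k hk]
    have := smul_swap (R := R) 1 (A k) (Matrix.single k.castSucc k.castSucc (1 : R)) x
    rwa [one_smul] at this
  rw [← stdAlt_apply (R := R), hv, AlternatingMap.map_update_smul, e, AlternatingMap.map_update_sub,
    AlternatingMap.map_update_sub]
  have k1 := key 1 (by decide)
  have k2 := key 2 (by decide)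
  have c1 : (1 : Fin 3).castSucc = 1 := rfl
  have c2 : (2 : Fin 3).castSucc = 2 := rfl
  rw [c1] at k1
  rw [c2] at k2
  rw [k1, k2]
  have k0 : stdAlt R (Matrix (Fin 4) (Fin 4) R) n (Function.update v (ι 0) 1) = 0 := by
    rw [stdAlt_apply]
    refine std_eq_zero_of_central hn _ (ι 0) fun x => ?_
    rw [Function.update_self, one_mul, mul_one]
  rw [k0]
  simp

theorem std_tri4 {n : ℕ} (hn : 6 ≤ n) (y : Fin n → Matrix (Fin 4) (Fin 4) R)
    (hy : ∀ i, Tri4 (y i)) : std y = 0 := by
  classical
  have h1 : y = fun i => ∑ k, comp4 (y i) k := by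
    funext i; exact (comp4_sum (hy i)).symm
  rw [← stdAlt_apply (R := R), h1]
  have h2 := MultilinearMap.map_sum (stdAlt R (Matrix (Fin 4) (Fin 4) R) n).toMultilinearMap
    (fun i k => comp4 (y i) k)
  refine h2.trans (Finset.sum_eq_zero fun r _ => ?_)
  change stdAlt R (Matrix (Fin 4) (Fin 4) R) n (fun i => comp4 (y i) (r i)) = 0
  rw [stdAlt_apply]
  set d : Fin n → ℕ := fun i => if r i = 3 then 1 else 0 with hd
  by_cases h5 : 4 ≤ ∑ i, d i
  · refine std_eq_zero_of_depth4 _ d (fun i => ?_) h5
    simp only [hd]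
    split_ifs with h
    · rw [h]; exact comp4_last_depth _
    · exact comp4_depth _ _
  · by_cases h6 : ∃ i j, i ≠ j ∧ r i = r j ∧ r i ≠ 3
    · obtain ⟨i, j, hij, hr, h4⟩ := h6
      refine std_eq_zero_of_swap _ hij fun x => ?_
      rw [← hr]
      unfold comp4
      rw [if_neg h4, if_neg h4]
      split_ifs
      · exact smul_swap _ _ _ _
      · exact smul_swap _ _ _ _
    · push Not at h6
      -- the set of indices of type other than `3`
      set S := Finset.univ.filter fun i => r i ≠ 3 with hS
      have hcard : (Finset.univ.filter fun i => r i = 3).card = ∑ i, d i := by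
        rw [Finset.card_filter]
      have hsum : (Finset.univ.filter fun i => r i = 3).card + S.card = n := by
        rw [hS, Finset.card_filter_add_card_filter_not]
        simp
      have hinj : Set.InjOn r S := by
        intro i hi j hj hij
        by_contra hne
        have h8 : r i ≠ 3 := by simpa [hS] using hi
        exact h8 (h6 i j hne hij)
      have himg : S.image r ⊆ Finset.univ.erase 3 := by
        intro k hk
        rw [Finset.mem_image] at hk
        obtain ⟨i, hi, rfl⟩ := hk
        have h8 : r i ≠ 3 := by simpa [hS] using hi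
        simpa using h8
      have hc4 : (Finset.univ.erase (3 : Fin 4)).card = 3 := by simp
      have hcS : (S.image r).card = S.card := Finset.card_image_of_injOn hinj
      have hle := Finset.card_le_card himg
      have hSc : S.card = 3 ∧ n = 6 := by omega
      have himg' : S.image r = Finset.univ.erase 3 :=
        Finset.eq_of_subset_of_card_le himg (by omega)
      have hex : ∀ k : Fin 3, ∃ i, r i = k.castSucc := by
        intro k
        have : k.castSucc ∈ S.image r := by
          rw [himg']
          have : k.castSucc ≠ 3 := by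
            intro h
            have := congrArg Fin.val h
            simp at this
            omega
          simpa using this
        rw [Finset.mem_image] at this
        obtain ⟨i, _, hi⟩ := this
        exact ⟨i, hi⟩
      choose ι hι using hex
      have hιi : Function.Injective ι := by
        intro a b hab
        have := (hι a).symm.trans ((congrArg r hab).trans (hι b))
        exact Fin.castSucc_injective _ this
      have hkne : ∀ k : Fin 3, k.castSucc ≠ (3 : Fin 4) := by decide
      refine std_key4 (by rw [hSc.2]; decide) _ (fun k => if k = 0 then y (ι 0) 0 0 else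
        y (ι k) k.castSucc k.castSucc) ι hιi ?_ ?_
      · simp only [hι, if_true]
        rfl
      · intro k hk
        have hk0 : k.castSucc ≠ (0 : Fin 4) := by
          intro h
          exact hk (Fin.castSucc_injective _ h)
        simp only [hι, hk, if_false, comp4, hkne, hk0]

end tri

variable {F : Type*} [Field F]

/-- index of the generic triangular matrix -/
def nm4 (i j : Fin 4) : Fin 4 × Fin 4 := if i = 3 ∧ j = 3 then (0, 0) else (i, j)

/-- the identities of the triangular matrices with equal corner entries over the field hold over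
every commutative algebra -/
theorem tri4_ext [Infinite F] {R : Type*} [CommRing R] [Algebra F R] (r : FreeAlgebra F ℕ)
    (h : ∀ A : ℕ → Matrix (Fin 4) (Fin 4) F, (∀ i, Tri4 (A i)) → FreeAlgebra.lift F A r = 0)
    (A : ℕ → Matrix (Fin 4) (Fin 4) R) (hA : ∀ i, Tri4 (A i)) : FreeAlgebra.lift F A r = 0 := by
  set G : ℕ → Matrix (Fin 4) (Fin 4) (MvPolynomial (ℕ × (Fin 4 × Fin 4)) F) := fun n =>
    Matrix.of fun i j => if i < j then 0 else MvPolynomial.X (n, nm4 i j) with hG
  have h1 := generic (R := R) G r (fun x => h _ fun n => ?_) fun p => A p.1 p.2.1 p.2.2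
  · have h2 : A = fun n => (G n).map
        (MvPolynomial.aeval fun p : ℕ × (Fin 4 × Fin 4) => A p.1 p.2.1 p.2.2) := by
      funext n
      ext i j
      rw [Matrix.map_apply]
      change _ = MvPolynomial.aeval _ (if i < j then 0 else MvPolynomial.X (n, nm4 i j))
      by_cases hij : i < j
      · rw [if_pos hij, map_zero]
        exact (hA n).low i j (by simpa using hij)
      · rw [if_neg hij, MvPolynomial.aeval_X]
        unfold nm4
        split_ifs with h3
        · obtain ⟨rfl, rfl⟩ := h3
          exact (hA n).eq.symm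
        · rfl
    rw [h2]
    exact h1
  · refine ⟨fun i j hij => ?_, ?_⟩
    · rw [Matrix.map_apply]
      have h3 : G n i j = 0 := by
        change (if i < j then 0 else MvPolynomial.X (n, nm4 i j)) = _
        rw [if_pos (by simpa using hij)]
      rw [h3, map_zero]
    · rw [Matrix.map_apply, Matrix.map_apply]
      have h3 : G n 0 0 = G n 3 3 := by
        change (if (0 : Fin 4) < 0 then 0 else MvPolynomial.X (n, nm4 0 0))
          = (if (3 : Fin 4) < 3 then 0 else MvPolynomial.X (n, nm4 3 3))
        rw [if_neg (by decide), if_neg (by decide)]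
        rfl
      rw [h3]

open Polynomial in
/-- reduction `F[w]^d → F^4` -/
noncomputable def qv4 {d : ℕ} (hd : 3 ≤ d) (v : Fin d → F[X]) : Fin 4 → F :=
  ![(v ⟨0, by omega⟩).coeff 0, (v ⟨1, by omega⟩).coeff 0, (v ⟨2, by omega⟩).coeff 0,
    (v ⟨0, by omega⟩).coeff 1]

open Polynomial in
/-- lift of a triangular matrix with equal corner entries to `F[w]` -/
noncomputable def up4 {d : ℕ} (A : Matrix (Fin 4) (Fin 4) F) : Matrix (Fin d) (Fin d) F[X] :=
  Matrix.of fun i j =>
    if hij : (i : ℕ) < 3 ∧ (j : ℕ) < 3 then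
      C (A ⟨i, by omega⟩ ⟨j, by omega⟩) + (if (i : ℕ) = 0 then C (A 3 ⟨j, by omega⟩) * X else 0)
    else 0

open Polynomial in
theorem sum_three {M : Type*} [AddCommMonoid M] {d : ℕ} (hd : 3 ≤ d) (f : Fin d → M)
    (hf : ∀ i : Fin d, 3 ≤ (i : ℕ) → f i = 0) :
    ∑ i, f i = f ⟨0, by omega⟩ + f ⟨1, by omega⟩ + f ⟨2, by omega⟩ := by
  obtain ⟨k, rfl⟩ := Nat.exists_eq_add_of_le hd
  rw [Fin.sum_univ_add, Fin.sum_univ_three]
  rw [Finset.sum_eq_zero (fun i _ => hf _ (by simp)), add_zero]
  rfl

open Polynomial in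
theorem up4_qv {d : ℕ} (hd : 3 ≤ d) {A : Matrix (Fin 4) (Fin 4) F} (hA : Tri4 A)
    (v : Fin d → F[X]) : qv4 hd ((up4 A).mulVec v) = A.mulVec (qv4 hd v) := by
  have hs : ∀ i : Fin d, ((up4 A).mulVec v) i = up4 A i ⟨0, by omega⟩ * v ⟨0, by omega⟩
      + up4 A i ⟨1, by omega⟩ * v ⟨1, by omega⟩ + up4 A i ⟨2, by omega⟩ * v ⟨2, by omega⟩ := by
    intro i
    unfold Matrix.mulVec dotProduct
    rw [sum_three hd]
    intro j hj
    have : up4 A i j = 0 := by
      unfold up4
      rw [Matrix.of_apply, dif_neg]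
      omega
    change up4 A i j * v j = 0
    rw [this, zero_mul]
  have hl : ∀ i j : Fin 4, i < j → A i j = 0 := fun i j hij => hA.low i j (by simpa using hij)
  have l01 := hl 0 1 (by decide)
  have l02 := hl 0 2 (by decide)
  have l03 := hl 0 3 (by decide)
  have l12 := hl 1 2 (by decide)
  have l13 := hl 1 3 (by decide)
  have l23 := hl 2 3 (by decide)
  have h03 := hA.eq
  have hA' : ∀ (w : Fin 4 → F) (k : Fin 4), (A.mulVec w) k
      = A k 0 * w 0 + A k 1 * w 1 + A k 2 * w 2 + A k 3 * w 3 := by
    intro w k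
    simp [Matrix.mulVec, dotProduct, Fin.sum_univ_four]
  ext k
  rw [hA']
  simp only [qv4, hs]
  fin_cases k <;>
    simp [up4, mul_coeff_zero, mul_coeff_one,
      add_mul, l01, l02, l03, l12, l13, l23, h03]
  all_goals try ring

open Polynomial in
theorem qv4_add {d : ℕ} (hd : 3 ≤ d) (v w : Fin d → F[X]) :
    qv4 hd (v + w) = qv4 hd v + qv4 hd w := by
  ext k
  fin_cases k <;> simp [qv4]

open Polynomial in
theorem qv4_smul {d : ℕ} (hd : 3 ≤ d) (a : F) (v : Fin d → F[X]) :
    qv4 hd (a • v) = a • qv4 hd v := by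
  ext k
  fin_cases k <;> simp [qv4]

open Polynomial in
theorem qv4_surj {d : ℕ} (hd : 3 ≤ d) (u : Fin 4 → F) : ∃ v, qv4 hd v = u := by
  refine ⟨fun i => if (i : ℕ) = 0 then C (u 0) + C (u 3) * X else
    if hi : (i : ℕ) < 3 then C (u ⟨i, by omega⟩) else 0, ?_⟩
  ext k
  fin_cases k <;> simp [qv4]

open Polynomial in
theorem up4_lift {d : ℕ} (hd : 3 ≤ d) {A : ℕ → Matrix (Fin 4) (Fin 4) F} (hA : ∀ i, Tri4 (A i))
    (r : FreeAlgebra F ℕ) (v : Fin d → F[X]) :
    qv4 hd ((FreeAlgebra.lift F (fun i => up4 (d := d) (A i)) r).mulVec v)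
      = (FreeAlgebra.lift F A r).mulVec (qv4 hd v) := by
  induction r using FreeAlgebra.induction generalizing v with
  | grade0 a =>
    rw [AlgHom.commutes, AlgHom.commutes, Algebra.algebraMap_eq_smul_one,
      Algebra.algebraMap_eq_smul_one, Matrix.smul_mulVec, Matrix.smul_mulVec, Matrix.one_mulVec,
      Matrix.one_mulVec, qv4_smul]
  | grade1 i =>
    rw [FreeAlgebra.lift_ι_apply, FreeAlgebra.lift_ι_apply]
    exact up4_qv hd (hA i) v
  | mul a b ha hb =>
    rw [map_mul, map_mul, ← Matrix.mulVec_mulVec, ← Matrix.mulVec_mulVec, ha, hb]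
  | add a b ha hb =>
    rw [map_add, map_add, Matrix.add_mulVec, Matrix.add_mulVec, qv4_add, ha, hb]

/-- **The triangular matrices with equal corner entries satisfy the identities of the `d × d`
matrices, `d ≥ 3`.** -/
theorem tri4_of_mat [Infinite F] {d : ℕ} (hd : 3 ≤ d) (r : FreeAlgebra F ℕ)
    (h : ∀ A : ℕ → Matrix (Fin d) (Fin d) F, FreeAlgebra.lift F A r = 0)
    (A : ℕ → Matrix (Fin 4) (Fin 4) F) (hA : ∀ i, Tri4 (A i)) : FreeAlgebra.lift F A r = 0 := by
  have h1 := mat_ext (R := Polynomial F) r h fun i => up4 (d := d) (A i)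
  ext i j
  obtain ⟨v, hv⟩ := qv4_surj hd (Pi.single j (1 : F))
  have h2 := up4_lift hd hA r v
  rw [h1, Matrix.zero_mulVec, hv, Matrix.mulVec_single_one] at h2
  have h3 := congrFun h2 i
  have h4 : qv4 hd (0 : Fin d → Polynomial F) i = 0 := by
    fin_cases i <;> simp [qv4]
  rw [h4] at h3
  exact h3.symm

end Pool.Agent.T6.H41.EP
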