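import Mathlib
import Pool.Agent.T6.H41.EP.Fwd
import Pool.Agent.T6.H41.EP.Tri4

/-!
The model: a quotient of the algebra generated by matrix units with monomial coefficients inside
the lower triangular `4 × 4` matrices over a polynomial ring.
-/

set_option autoImplicit false

namespace Pool.Agent.T6.H41.EP

open Pool.Agent.Helper270.WPSource MvPolynomial
open Pool.Agent.H682R2.StdNil Pool.Agent.H682R2.StdTri

universe u

section

variable {Q : Type} (M : Sys Q Bool) (F : Type u) [Field F]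

/-- the pair of counters -/
def cnt (i j : ℕ) : Bool → ℕ := fun t => if t then i else j

/-- the configuration never halts -/
def live (i j k l : ℕ) : Q ⊕ Q × (Bool → Fin M.B) → Prop
  | Sum.inl q => ¬ M.Halts (some q) (cnt (i + M.B * k) (j + M.B * l))
  | Sum.inr (q, ρ) => ¬ M.Halts (M.nxt q ρ)
      (cnt (i + M.a q ρ true * k + M.b q ρ true) (j + M.a q ρ false * l + M.b q ρ false))

/-- the coefficient ring -/
abbrev KK := MvPolynomial (Gn Q M.B) F

/-- start of a letter -/
def sr : Gn Q M.B → Fin 4 := Sum.elim ![3, 1, 2, 2, 1, 1] (fun _ => 2)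

/-- end of a letter -/
def tg : Gn Q M.B → Fin 4 := Sum.elim ![2, 0, 2, 2, 1, 1] (fun _ => 1)

/-- the matrix of a letter -/
noncomputable def rho (z : Gn Q M.B) : Matrix (Fin 4) (Fin 4) (KK M F) :=
  Matrix.single (sr M z) (tg M z) (X z)

/-- the representation -/
noncomputable def hh : FreeAlgebra F (Gn Q M.B) →ₐ[F] Matrix (Fin 4) (Fin 4) (KK M F) :=
  FreeAlgebra.lift F (rho M F)

open Classical in
/-- the value of a monomial -/
noncomputable def phi (μ : Gn Q M.B →₀ ℕ) : F :=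
  if ∃ s, μ (Sum.inr s) ≠ 0 ∧ live M (μ (la M)) (μ (lc M)) (μ (lb M)) (μ (ld M)) s then 1 else 0

/-- the functional on the coefficient ring -/
noncomputable def Phi0 : KK M F →ₗ[F] F := (basisMonomials (Gn Q M.B) F).constr F (phi M F)

/-- the monomial of the word `A a^i c^j s b^k d^l Z` -/
noncomputable def mon (i j k l : ℕ) (s : Q ⊕ Q × (Bool → Fin M.B)) : KK M F :=
  X (lA M) * X (la M) ^ i * X (lc M) ^ j * X (Sum.inr s) * X (lb M) ^ k * X (ld M) ^ l * X (lZ M)

open Classical in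
theorem Phi0_mon (i j k l : ℕ) (s : Q ⊕ Q × (Bool → Fin M.B)) :
    Phi0 M F (mon M F i j k l s) = if live M i j k l s then 1 else 0 := by
  set μ : Gn Q M.B →₀ ℕ := Finsupp.single (lA M) 1 + Finsupp.single (la M) i
    + Finsupp.single (lc M) j + Finsupp.single (Sum.inr s) 1 + Finsupp.single (lb M) k
    + Finsupp.single (ld M) l + Finsupp.single (lZ M) 1 with hμ
  have h1 : mon M F i j k l s = monomial μ 1 := by
    unfold mon
    rw [hμ]
    simp only [X_pow_eq_monomial]
    simp only [X, monomial_mul, one_mul]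
  have h2 : Phi0 M F (monomial μ 1) = phi M F μ := by
    have := (basisMonomials (Gn Q M.B) F).constr_basis F (phi M F) μ
    rwa [coe_basisMonomials] at this
  rw [h1, h2]
  have ma : μ (la M) = i := by simp [hμ]
  have mc : μ (lc M) = j := by simp [hμ]
  have mb : μ (lb M) = k := by simp [hμ]
  have md : μ (ld M) = l := by simp [hμ]
  have ms : ∀ s', μ (Sum.inr s') = if s = s' then 1 else 0 := by
    intro s'
    simp [hμ, Finsupp.single_apply]
  unfold phi
  rw [ma, mc, mb, md]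
  congr 1
  apply propext
  constructor
  · rintro ⟨s', h3, h4⟩
    rw [ms] at h3
    have : s = s' := by
      by_contra hne
      rw [if_neg hne] at h3
      exact h3 rfl
    rwa [this]
  · intro h
    refine ⟨s, ?_, h⟩
    rw [ms, if_pos rfl]
    exact one_ne_zero

/-- the polynomials in `a, c` -/
noncomputable def P2 : Submodule F (KK M F) :=
  Submodule.span F (Set.range fun p : ℕ × ℕ => (X (la M) ^ p.1 * X (lc M) ^ p.2 : KK M F))

/-- the polynomials in `b, d` -/
noncomputable def P1 : Submodule F (KK M F) :=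
  Submodule.span F (Set.range fun p : ℕ × ℕ => (X (lb M) ^ p.1 * X (ld M) ^ p.2 : KK M F))

theorem span_mul {K : Type*} [CommRing K] [Algebra F K] (u w : K) {x y : K}
    (hx : x ∈ Submodule.span F (Set.range fun p : ℕ × ℕ => u ^ p.1 * w ^ p.2))
    (hy : y ∈ Submodule.span F (Set.range fun p : ℕ × ℕ => u ^ p.1 * w ^ p.2)) :
    x * y ∈ Submodule.span F (Set.range fun p : ℕ × ℕ => u ^ p.1 * w ^ p.2) := by
  have h1 := Submodule.mul_mem_mul hx hy
  rw [Submodule.span_mul_span] at h1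
  refine Submodule.span_mono ?_ h1
  rintro _ ⟨_, ⟨p, rfl⟩, _, ⟨q, rfl⟩, rfl⟩
  refine ⟨(p.1 + q.1, p.2 + q.2), ?_⟩
  simp only [pow_add]
  ring

/-- the form of the matrices of the representation -/
structure Inv (Y : Matrix (Fin 4) (Fin 4) (KK M F)) : Prop where
  low : ∀ i j : Fin 4, i < j → Y i j = 0
  c3 : ∃ t : F, Y 3 3 = C t ∧ Y 0 0 = C t
  m2 : Y 2 2 ∈ P2 M F
  m1 : Y 1 1 ∈ P1 M F
  l2 : ∃ p ∈ P2 M F, Y 3 2 = X (lA M) * p
  l1 : ∃ p ∈ P1 M F, Y 1 0 = p * X (lZ M)

theorem smul_C (t : F) (p : KK M F) : C t * p = t • p := by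
  rw [MvPolynomial.smul_eq_C_mul]

theorem C_mem_P2 (t : F) : (C t : KK M F) ∈ P2 M F := by
  have : (C t : KK M F) = t • (X (la M) ^ 0 * X (lc M) ^ 0) := by
    rw [pow_zero, pow_zero, mul_one, ← smul_C, mul_one]
  rw [this]
  exact Submodule.smul_mem _ _ (Submodule.subset_span ⟨(0, 0), rfl⟩)

theorem C_mem_P1 (t : F) : (C t : KK M F) ∈ P1 M F := by
  have : (C t : KK M F) = t • (X (lb M) ^ 0 * X (ld M) ^ 0) := by
    rw [pow_zero, pow_zero, mul_one, ← smul_C, mul_one]
  rw [this]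
  exact Submodule.smul_mem _ _ (Submodule.subset_span ⟨(0, 0), rfl⟩)

theorem Inv.algMap (t : F) : Inv M F (algebraMap F (Matrix (Fin 4) (Fin 4) (KK M F)) t) := by
  have hd : ∀ i j : Fin 4, algebraMap F (Matrix (Fin 4) (Fin 4) (KK M F)) t i j
      = if i = j then C t else 0 := by
    intro i j
    rw [Matrix.algebraMap_matrix_apply]
    rfl
  refine ⟨fun i j hij => ?_, ⟨t, ?_, ?_⟩, ?_, ?_, ⟨0, Submodule.zero_mem _, ?_⟩,
    ⟨0, Submodule.zero_mem _, ?_⟩⟩
  · rw [hd, if_neg hij.ne]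
  · rw [hd, if_pos rfl]
  · rw [hd, if_pos rfl]
  · rw [hd, if_pos rfl]; exact C_mem_P2 M F t
  · rw [hd, if_pos rfl]; exact C_mem_P1 M F t
  · rw [hd, if_neg (by decide), mul_zero]
  · rw [hd, if_neg (by decide), zero_mul]

variable {M F}

theorem Inv.add {Y Z : Matrix (Fin 4) (Fin 4) (KK M F)} (hY : Inv M F Y) (hZ : Inv M F Z) :
    Inv M F (Y + Z) := by
  obtain ⟨t, ht1, ht2⟩ := hY.c3
  obtain ⟨s, hs1, hs2⟩ := hZ.c3
  obtain ⟨p, hp, hp'⟩ := hY.l2
  obtain ⟨q, hq, hq'⟩ := hZ.l2
  obtain ⟨p1, hp1, hp1'⟩ := hY.l1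
  obtain ⟨q1, hq1, hq1'⟩ := hZ.l1
  refine ⟨fun i j hij => ?_, ⟨t + s, ?_, ?_⟩, ?_, ?_, ⟨p + q, Submodule.add_mem _ hp hq, ?_⟩,
    ⟨p1 + q1, Submodule.add_mem _ hp1 hq1, ?_⟩⟩
  · rw [Matrix.add_apply, hY.low i j hij, hZ.low i j hij, add_zero]
  · rw [Matrix.add_apply, ht1, hs1, C_add]
  · rw [Matrix.add_apply, ht2, hs2, C_add]
  · exact Submodule.add_mem _ hY.m2 hZ.m2
  · exact Submodule.add_mem _ hY.m1 hZ.m1
  · rw [Matrix.add_apply, hp', hq', mul_add]
  · rw [Matrix.add_apply, hp1', hq1', add_mul]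

theorem Inv.mul {Y Z : Matrix (Fin 4) (Fin 4) (KK M F)} (hY : Inv M F Y) (hZ : Inv M F Z) :
    Inv M F (Y * Z) := by
  obtain ⟨t, ht1, ht2⟩ := hY.c3
  obtain ⟨s, hs1, hs2⟩ := hZ.c3
  obtain ⟨p, hp, hp'⟩ := hY.l2
  obtain ⟨q, hq, hq'⟩ := hZ.l2
  obtain ⟨p1, hp1, hp1'⟩ := hY.l1
  obtain ⟨q1, hq1, hq1'⟩ := hZ.l1
  have hm : ∀ i j, (Y * Z) i j = Y i 0 * Z 0 j + Y i 1 * Z 1 j + Y i 2 * Z 2 j + Y i 3 * Z 3 j := by
    intro i j
    rw [Matrix.mul_apply, Fin.sum_univ_four]
  have hYl := hY.low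
  have hZl := hZ.low
  have y01 := hYl 0 1 (by decide)
  have y02 := hYl 0 2 (by decide)
  have y03 := hYl 0 3 (by decide)
  have y12 := hYl 1 2 (by decide)
  have y13 := hYl 1 3 (by decide)
  have y23 := hYl 2 3 (by decide)
  have z01 := hZl 0 1 (by decide)
  have z02 := hZl 0 2 (by decide)
  have z03 := hZl 0 3 (by decide)
  have z12 := hZl 1 2 (by decide)
  have z13 := hZl 1 3 (by decide)
  have z23 := hZl 2 3 (by decide)
  refine ⟨fun i j hij => ?_, ⟨t * s, ?_, ?_⟩, ?_, ?_, ⟨p * Z 2 2 + t • q, ?_, ?_⟩,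
    ⟨s • p1 + Y 1 1 * q1, ?_, ?_⟩⟩
  · rw [Matrix.mul_apply]
    refine Finset.sum_eq_zero fun k _ => ?_
    by_cases hk : i < k
    · rw [hYl i k hk, zero_mul]
    · rw [hZl k j (lt_of_le_of_lt (not_lt.1 hk) hij), mul_zero]
  · rw [hm, z03, z13, z23, ht1, hs1, mul_zero, mul_zero, mul_zero, zero_add, zero_add, zero_add,
      C_mul]
  · rw [hm, y01, y02, y03, ht2, hs2, zero_mul, zero_mul, zero_mul, add_zero, add_zero, add_zero,
      C_mul]
  · rw [hm, z02, z12, y23, mul_zero, mul_zero, zero_mul, zero_add, zero_add, add_zero]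
    exact span_mul F _ _ hY.m2 hZ.m2
  · rw [hm, z01, y12, y13, mul_zero, zero_mul, zero_mul, zero_add, add_zero, add_zero]
    exact span_mul F _ _ hY.m1 hZ.m1
  · exact Submodule.add_mem _ (span_mul F _ _ hp hZ.m2) (Submodule.smul_mem _ _ hq)
  · rw [hm, z02, z12, ht1, hp', hq', mul_zero, mul_zero, zero_add, zero_add, ← smul_C]
    ring
  · exact Submodule.add_mem _ (Submodule.smul_mem _ _ hp1) (span_mul F _ _ hY.m1 hq1)
  · rw [hm, y12, y13, hs2, hp1', hq1', zero_mul, zero_mul, add_zero, add_zero, ← smul_C]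
    ring

theorem Inv.single (i j : Fin 4) (p : KK M F) (hij : ¬ i < j) (h33 : ¬ (i = 3 ∧ j = 3))
    (h00 : ¬ (i = 0 ∧ j = 0)) (h22 : i = 2 ∧ j = 2 → p ∈ P2 M F)
    (h11 : i = 1 ∧ j = 1 → p ∈ P1 M F)
    (h32 : i = 3 ∧ j = 2 → ∃ p' ∈ P2 M F, p = X (lA M) * p')
    (h10 : i = 1 ∧ j = 0 → ∃ p' ∈ P1 M F, p = p' * X (lZ M)) :
    Inv M F (Matrix.single i j p) := by
  refine ⟨fun k l hkl => ?_, ⟨0, ?_, ?_⟩, ?_, ?_, ?_, ?_⟩
  · rw [Matrix.single_apply, if_neg]
    rintro ⟨rfl, rfl⟩
    exact hij hkl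
  · rw [Matrix.single_apply, if_neg h33, C_0]
  · rw [Matrix.single_apply, if_neg h00, C_0]
  · rw [Matrix.single_apply]
    split_ifs with h
    · exact h22 h
    · exact Submodule.zero_mem _
  · rw [Matrix.single_apply]
    split_ifs with h
    · exact h11 h
    · exact Submodule.zero_mem _
  · rw [Matrix.single_apply]
    split_ifs with h
    · exact h32 h
    · exact ⟨0, Submodule.zero_mem _, by rw [mul_zero]⟩
  · rw [Matrix.single_apply]
    split_ifs with h
    · exact h10 h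
    · exact ⟨0, Submodule.zero_mem _, by rw [zero_mul]⟩

theorem Inv.rho (z : Gn Q M.B) : Inv M F (rho M F z) := by
  have one2 : (1 : KK M F) ∈ P2 M F := by
    have := C_mem_P2 M F 1
    rwa [C_1] at this
  have one1 : (1 : KK M F) ∈ P1 M F := by
    have := C_mem_P1 M F 1
    rwa [C_1] at this
  rcases z with z | s
  · have hz : z = 0 ∨ z = 1 ∨ z = 2 ∨ z = 3 ∨ z = 4 ∨ z = 5 := by
      revert z; decide
    rcases hz with rfl | rfl | rfl | rfl | rfl | rfl
    · exact Inv.single 3 2 _ (by decide) (by decide) (by decide) (fun h => absurd h (by decide))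
        (fun h => absurd h (by decide)) (fun _ => ⟨1, one2, (mul_one _).symm⟩)
        (fun h => absurd h (by decide))
    · exact Inv.single 1 0 _ (by decide) (by decide) (by decide) (fun h => absurd h (by decide))
        (fun h => absurd h (by decide)) (fun h => absurd h (by decide))
        (fun _ => ⟨1, one1, (one_mul _).symm⟩)
    · exact Inv.single 2 2 _ (by decide) (by decide) (by decide)
        (fun _ => Submodule.subset_span ⟨(1, 0), by simp⟩)
        (fun h => absurd h (by decide)) (fun h => absurd h (by decide))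
        (fun h => absurd h (by decide))
    · exact Inv.single 2 2 _ (by decide) (by decide) (by decide)
        (fun _ => Submodule.subset_span ⟨(0, 1), by simp⟩)
        (fun h => absurd h (by decide)) (fun h => absurd h (by decide))
        (fun h => absurd h (by decide))
    · exact Inv.single 1 1 _ (by decide) (by decide) (by decide) (fun h => absurd h (by decide))
        (fun _ => Submodule.subset_span ⟨(1, 0), by simp⟩)
        (fun h => absurd h (by decide)) (fun h => absurd h (by decide))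
    · exact Inv.single 1 1 _ (by decide) (by decide) (by decide) (fun h => absurd h (by decide))
        (fun _ => Submodule.subset_span ⟨(0, 1), by simp⟩)
        (fun h => absurd h (by decide)) (fun h => absurd h (by decide))
  · exact Inv.single 2 1 _ (by decide) (by decide) (by decide) (fun h => absurd h (by decide))
      (fun h => absurd h (by decide)) (fun h => absurd h (by decide))
      (fun h => absurd h (by decide))

theorem Inv.hh (x : FreeAlgebra F (Gn Q M.B)) : Inv M F (hh M F x) := by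
  induction x using FreeAlgebra.induction with
  | grade0 t => rw [AlgHom.commutes]; exact Inv.algMap M F t
  | grade1 z =>
    unfold EP.hh
    rw [FreeAlgebra.lift_ι_apply]
    exact Inv.rho z
  | mul x y hx hy => rw [map_mul]; exact hx.mul hy
  | add x y hx hy => rw [map_add]; exact hx.add hy

theorem Inv.tri {Y : Matrix (Fin 4) (Fin 4) (KK M F)} (h : Inv M F Y) : Tri4 Y := by
  obtain ⟨t, h1, h2⟩ := h.c3
  refine ⟨fun i j hij => h.low i j ?_, by rw [h1, h2]⟩
  simpa using hij

end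

end Pool.Agent.T6.H41.EP
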