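import Mathlib
import Pool.Agent.T6.H41.EP.Model

/-!
The quotient algebra: it satisfies the relations of the machine and the identities of the
triangular matrices, and the word of a configuration from which the machine never halts is nonzero.
-/

set_option autoImplicit false

namespace Pool.Agent.T6.H41.EP

open Pool.Agent.Helper270.WPSource MvPolynomial
open Pool.Agent.H682R2.StdNil Pool.Agent.H682R2.StdTri

universe u

section

variable {Q : Type} (M : Sys Q Bool) (F : Type u) [Field F]

/-- the congruence -/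
noncomputable def con : RingCon (FreeAlgebra F (Gn Q M.B)) where
  r x y := ∀ s t, Phi0 M F ((hh M F (s * (x - y) * t)) 3 0) = 0
  iseqv := by
    refine ⟨fun x s t => ?_, fun {x y} h s t => ?_, fun {x y z} h1 h2 s t => ?_⟩
    · rw [sub_self, mul_zero, zero_mul, map_zero, Matrix.zero_apply, map_zero]
    · have e : s * (y - x) * t = -(s * (x - y) * t) := by noncomm_ring
      rw [e, map_neg, Matrix.neg_apply, map_neg, h s t, neg_zero]
    · have e : s * (x - z) * t = s * (x - y) * t + s * (y - z) * t := by noncomm_ring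
      rw [e, map_add, Matrix.add_apply, map_add, h1 s t, h2 s t, add_zero]
  add' := by
    intro w x y z h1 h2 s t
    have e : s * (w + y - (x + z)) * t = s * (w - x) * t + s * (y - z) * t := by noncomm_ring
    rw [e, map_add, Matrix.add_apply, map_add, h1 s t, h2 s t, add_zero]
  mul' := by
    intro w x y z h1 h2 s t
    have e : s * (w * y - (x * z)) * t = s * (w - x) * (y * t) + (s * x) * (y - z) * t := by
      noncomm_ring
    rw [e, map_add, Matrix.add_apply, map_add, h1 s _, h2 _ t, add_zero]

theorem con_iff (x y : FreeAlgebra F (Gn Q M.B)) :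
    con M F x y ↔ ∀ s t, Phi0 M F ((hh M F (s * (x - y) * t)) 3 0) = 0 := Iff.rfl

/-- the model -/
abbrev TT := (con M F).Quotient

/-- the quotient map -/
noncomputable abbrev mk : FreeAlgebra F (Gn Q M.B) →ₐ[F] TT M F := (con M F).mkₐ F

theorem mk_eq (x y : FreeAlgebra F (Gn Q M.B)) : mk M F x = mk M F y ↔ con M F x y :=
  (con M F).eq

theorem mk_surj : Function.Surjective (mk M F) := by
  intro x
  obtain ⟨y, rfl⟩ := (con M F).mk'_surjective x
  exact ⟨y, rfl⟩

theorem entry (Y Z : Matrix (Fin 4) (Fin 4) (KK M F)) (i j : Fin 4) (m : KK M F) :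
    (Y * Matrix.single i j m * Z) 3 0 = Y 3 i * m * Z j 0 := by
  rw [Matrix.mul_assoc, Matrix.mul_apply, Finset.sum_eq_single i]
  · rw [Matrix.mul_apply, Finset.sum_eq_single j]
    · rw [Matrix.single_apply_same, mul_assoc]
    · intro k _ hk
      rw [Matrix.single_apply, if_neg (fun h => hk h.2.symm), zero_mul]
    · intro h; exact absurd (Finset.mem_univ _) h
  · intro k _ hk
    rw [Matrix.mul_apply, Finset.sum_eq_zero, mul_zero]
    intro l _
    rw [Matrix.single_apply, if_neg (fun h => hk h.1.symm), zero_mul]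
  · intro h; exact absurd (Finset.mem_univ _) h

theorem span_zero {m : KK M F} {u w : KK M F} (f : KK M F →ₗ[F] F)
    (h : ∀ i j : ℕ, f (u ^ i * w ^ j * m) = 0) {p : KK M F}
    (hp : p ∈ Submodule.span F (Set.range fun p : ℕ × ℕ => u ^ p.1 * w ^ p.2)) :
    f (p * m) = 0 := by
  induction hp using Submodule.span_induction with
  | mem x hx =>
    obtain ⟨q, rfl⟩ := hx
    exact h _ _
  | zero => rw [zero_mul, map_zero]
  | add x y _ _ hx hy => rw [add_mul, map_add, hx, hy, add_zero]
  | smul t x _ hx => rw [smul_mul_assoc, map_smul, hx, smul_zero]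

theorem con21 {x y : FreeAlgebra F (Gn Q M.B)} {m : KK M F}
    (hm : hh M F (x - y) = Matrix.single 2 1 m)
    (h : ∀ i j k l, Phi0 M F (X (lA M) * (X (la M) ^ i * X (lc M) ^ j) * m
      * (X (lb M) ^ k * X (ld M) ^ l * X (lZ M))) = 0) : con M F x y := by
  rw [con_iff]
  intro s t
  rw [map_mul, map_mul, hm, entry]
  obtain ⟨p, hp, hp'⟩ := (Inv.hh s).l2
  obtain ⟨q, hq, hq'⟩ := (Inv.hh t).l1
  rw [hp', hq']
  have e : X (lA M) * p * m * (q * X (lZ M)) = p * (X (lA M) * m * (q * X (lZ M))) := by ring
  rw [e]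
  refine span_zero M F (Phi0 M F) (fun i j => ?_) hp
  have e : X (la M) ^ i * X (lc M) ^ j * (X (lA M) * m * (q * X (lZ M)))
      = q * (X (la M) ^ i * X (lc M) ^ j * (X (lA M) * m * X (lZ M))) := by ring
  rw [e]
  refine span_zero M F (Phi0 M F) (fun k l => ?_) hq
  rw [← h i j k l]
  congr 1
  ring

theorem con31 {x y : FreeAlgebra F (Gn Q M.B)} {m : KK M F}
    (hm : hh M F (x - y) = Matrix.single 3 1 m)
    (h : ∀ k l, Phi0 M F (m * (X (lb M) ^ k * X (ld M) ^ l * X (lZ M))) = 0) : con M F x y := by
  rw [con_iff]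
  intro s t
  rw [map_mul, map_mul, hm, entry]
  obtain ⟨t0, hp, -⟩ := (Inv.hh s).c3
  obtain ⟨q, hq, hq'⟩ := (Inv.hh t).l1
  rw [hp, hq', mul_assoc, smul_C, map_smul]
  have e : m * (q * X (lZ M)) = q * (m * X (lZ M)) := by ring
  rw [e, span_zero M F (Phi0 M F) (fun k l => ?_) hq, smul_zero]
  rw [← h k l]
  congr 1
  ring

theorem con20 {x y : FreeAlgebra F (Gn Q M.B)} {m : KK M F}
    (hm : hh M F (x - y) = Matrix.single 2 0 m)
    (h : ∀ i j, Phi0 M F (X (lA M) * (X (la M) ^ i * X (lc M) ^ j) * m) = 0) : con M F x y := by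
  rw [con_iff]
  intro s t
  rw [map_mul, map_mul, hm, entry]
  obtain ⟨p, hp, hp'⟩ := (Inv.hh s).l2
  obtain ⟨t0, -, hq⟩ := (Inv.hh t).c3
  rw [hq, hp', mul_comm, smul_C, map_smul]
  have e : X (lA M) * p * m = p * (X (lA M) * m) := by ring
  rw [e, span_zero M F (Phi0 M F) (fun i j => ?_) hp, smul_zero]
  rw [← h i j]
  congr 1
  ring

theorem con0 {x y : FreeAlgebra F (Gn Q M.B)} (hm : hh M F (x - y) = 0) : con M F x y := by
  rw [con_iff]
  intro s t
  rw [map_mul, map_mul, hm, mul_zero, zero_mul, Matrix.zero_apply, map_zero]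

/-- the letters in the free algebra -/
noncomputable abbrev io (z : Gn Q M.B) : FreeAlgebra F (Gn Q M.B) := FreeAlgebra.ι F z

theorem hh_io (z : Gn Q M.B) : hh M F (io M F z) = Matrix.single (sr M z) (tg M z) (X z) := by
  unfold hh
  rw [FreeAlgebra.lift_ι_apply]
  rfl

theorem hh_A : hh M F (io M F (lA M)) = Matrix.single 3 2 (X (lA M)) := hh_io M F _
theorem hh_Z : hh M F (io M F (lZ M)) = Matrix.single 1 0 (X (lZ M)) := hh_io M F _
theorem hh_a : hh M F (io M F (la M)) = Matrix.single 2 2 (X (la M)) := hh_io M F _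
theorem hh_c : hh M F (io M F (lc M)) = Matrix.single 2 2 (X (lc M)) := hh_io M F _
theorem hh_b : hh M F (io M F (lb M)) = Matrix.single 1 1 (X (lb M)) := hh_io M F _
theorem hh_d : hh M F (io M F (ld M)) = Matrix.single 1 1 (X (ld M)) := hh_io M F _
theorem hh_s (s : Q ⊕ Q × (Bool → Fin M.B)) :
    hh M F (io M F (Sum.inr s)) = Matrix.single 2 1 (X (Sum.inr s)) := hh_io M F _

theorem single_sub' {K : Type*} [CommRing K] (i j : Fin 4) (m p : K) :
    Matrix.single i j m - Matrix.single i j p = Matrix.single i j (m - p) := by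
  ext k l
  rw [Matrix.sub_apply, Matrix.single_apply, Matrix.single_apply, Matrix.single_apply]
  split_ifs
  · rfl
  · exact sub_zero 0

theorem pow_single_mul {K : Type*} [CommRing K] (i j : Fin 4) (m p : K) (k : ℕ) :
    Matrix.single i i m ^ k * Matrix.single i j p = Matrix.single i j (m ^ k * p) := by
  induction k with
  | zero => rw [pow_zero, pow_zero, one_mul, one_mul]
  | succ k ih =>
    rw [pow_succ', mul_assoc, ih, Matrix.single_mul_single_same, pow_succ', mul_assoc]

theorem Phi0_mon' (i j k l : ℕ) (s : Q ⊕ Q × (Bool → Fin M.B)) {p : KK M F}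
    (hp : p = mon M F i j k l s) {P : Prop} [Decidable P] (hP : live M i j k l s ↔ P) :
    Phi0 M F p = if P then 1 else 0 := by
  rw [hp, Phi0_mon]
  by_cases h : P
  · rw [if_pos h, if_pos (hP.2 h)]
  · rw [if_neg h, if_neg (fun h' => h (hP.1 h'))]

theorem cnt_eta (n : Bool → ℕ) : cnt (n true) (n false) = n := by
  funext t; cases t <;> rfl

/-- a step of the machine in the first phase -/
theorem live_step (q : Q) (i j : ℕ) (ρ : Bool → Fin M.B) (k l : ℕ)
    (hi : i = (ρ true : ℕ)) (hj : j = (ρ false : ℕ)) :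
    live M i j k l (Sum.inl q) ↔ live M 0 0 k l (Sum.inr (q, ρ)) := by
  unfold live
  have hres : M.res (cnt (i + M.B * k) (j + M.B * l)) = ρ := by
    funext t
    apply Fin.ext
    unfold Sys.res cnt
    cases t
    · simp [hj, Nat.add_mul_mod_self_left, Nat.mod_eq_of_lt (ρ false).2]
    · simp [hi, Nat.add_mul_mod_self_left, Nat.mod_eq_of_lt (ρ true).2]
  have hd1 : (i + M.B * k) / M.B = k := by
    rw [Nat.add_mul_div_left _ _ M.hB, hi, Nat.div_eq_of_lt (ρ true).2, zero_add]
  have hd2 : (j + M.B * l) / M.B = l := by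
    rw [Nat.add_mul_div_left _ _ M.hB, hj, Nat.div_eq_of_lt (ρ false).2, zero_add]
  have hnn : M.nn q (cnt (i + M.B * k) (j + M.B * l))
      = cnt (0 + M.a q ρ true * k + M.b q ρ true) (0 + M.a q ρ false * l + M.b q ρ false) := by
    funext t
    unfold Sys.nn
    rw [hres]
    cases t
    · simp [cnt, hd2]
    · simp [cnt, hd1]
  have key : M.Halts (some q) (cnt (i + M.B * k) (j + M.B * l)) ↔
      M.Halts (M.nxt q ρ) (cnt (0 + M.a q ρ true * k + M.b q ρ true)
        (0 + M.a q ρ false * l + M.b q ρ false)) := by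
    constructor
    · intro h
      cases h with
      | step _ _ h => rwa [hres, hnn] at h
    · intro h
      refine Sys.Halts.step q _ ?_
      rwa [hres, hnn]
  exact not_congr key

theorem rels : Rels M (fun z => mk M F (io M F z)) where
  ac := by
    rw [← map_mul, ← map_mul, mk_eq]
    refine con0 M F ?_
    rw [map_sub, map_mul, map_mul, hh_a, hh_c, Matrix.single_mul_single_same,
      Matrix.single_mul_single_same, mul_comm, sub_self]
  r1 := by
    classical
    intro q
    rw [← map_pow, ← map_mul, ← map_mul, mk_eq]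
    refine con21 M F (m := X (la M) ^ M.B * X (lx M q) - X (lx M q) * X (lb M)) ?_ ?_
    · rw [map_sub, map_mul, map_pow, map_mul, hh_a, hh_s, hh_b, pow_single_mul,
        Matrix.single_mul_single_same, single_sub']
    · intro i j k l
      rw [mul_sub, sub_mul, map_sub,
        Phi0_mon' M F (i + M.B) j k l (Sum.inl q) (P := live M i j (k + 1) l (Sum.inl q))
          (by unfold mon; rw [pow_add]; ring) ?_,
        Phi0_mon' M F i j (k + 1) l (Sum.inl q) (P := live M i j (k + 1) l (Sum.inl q))
          (by unfold mon; rw [pow_add]; ring) Iff.rfl, sub_self]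
      unfold live
      rw [show i + M.B + M.B * k = i + M.B * (k + 1) by ring]
  r2 := by
    classical
    intro q
    rw [← map_pow, ← map_mul, ← map_mul, mk_eq]
    refine con21 M F (m := X (lc M) ^ M.B * X (lx M q) - X (lx M q) * X (ld M)) ?_ ?_
    · rw [map_sub, map_mul, map_pow, map_mul, hh_c, hh_s, hh_d, pow_single_mul,
        Matrix.single_mul_single_same, single_sub']
    · intro i j k l
      rw [mul_sub, sub_mul, map_sub,
        Phi0_mon' M F i (j + M.B) k l (Sum.inl q) (P := live M i j k (l + 1) (Sum.inl q))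
          (by unfold mon; rw [pow_add]; ring) ?_,
        Phi0_mon' M F i j k (l + 1) (Sum.inl q) (P := live M i j k (l + 1) (Sum.inl q))
          (by unfold mon; rw [pow_add]; ring) Iff.rfl, sub_self]
      unfold live
      rw [show j + M.B + M.B * l = j + M.B * (l + 1) by ring]
  r3 := by
    classical
    intro q ρ
    rw [← map_pow, ← map_pow, ← map_mul, ← map_mul, ← map_mul, ← map_mul, mk_eq]
    refine con31 M F (m := X (lA M) * (X (lc M) ^ (ρ false : ℕ) * (X (la M) ^ (ρ true : ℕ)
      * X (lx M q))) - X (lA M) * X (ly M q ρ)) ?_ ?_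
    · rw [map_sub, map_mul, map_mul, map_mul, map_mul, map_pow, map_pow, hh_a, hh_s, hh_s, hh_c,
        hh_A, pow_single_mul, pow_single_mul, Matrix.single_mul_single_same,
        Matrix.single_mul_single_same, single_sub']
    · intro k l
      rw [sub_mul, map_sub,
        Phi0_mon' M F (ρ true) (ρ false) k l (Sum.inl q)
          (P := live M 0 0 k l (Sum.inr (q, ρ))) (by unfold mon; ring)
          (live_step M q _ _ ρ k l rfl rfl),
        Phi0_mon' M F 0 0 k l (Sum.inr (q, ρ)) (P := live M 0 0 k l (Sum.inr (q, ρ)))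
          (by unfold mon; ring) Iff.rfl, sub_self]
  r4 := by
    classical
    intro q ρ
    rw [← map_pow, ← map_mul, ← map_mul, mk_eq]
    refine con21 M F (m := X (ly M q ρ) * X (lb M) - X (la M) ^ M.a q ρ true * X (ly M q ρ)) ?_ ?_
    · rw [map_sub, map_mul, map_mul, map_pow, hh_a, hh_s, hh_b, pow_single_mul,
        Matrix.single_mul_single_same, single_sub']
    · intro i j k l
      rw [mul_sub, sub_mul, map_sub,
        Phi0_mon' M F i j (k + 1) l (Sum.inr (q, ρ))
          (P := live M i j (k + 1) l (Sum.inr (q, ρ)))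
          (by unfold mon; rw [pow_add]; ring) Iff.rfl,
        Phi0_mon' M F (i + M.a q ρ true) j k l (Sum.inr (q, ρ))
          (P := live M i j (k + 1) l (Sum.inr (q, ρ)))
          (by unfold mon; rw [pow_add]; ring) ?_, sub_self]
      unfold live
      simp only
      rw [show i + M.a q ρ true + M.a q ρ true * k + M.b q ρ true
        = i + M.a q ρ true * (k + 1) + M.b q ρ true by ring]
  r5 := by
    classical
    intro q ρ
    rw [← map_pow, ← map_mul, ← map_mul, mk_eq]
    refine con21 M F (m := X (ly M q ρ) * X (ld M) - X (lc M) ^ M.a q ρ false * X (ly M q ρ)) ?_ ?_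
    · rw [map_sub, map_mul, map_mul, map_pow, hh_c, hh_s, hh_d, pow_single_mul,
        Matrix.single_mul_single_same, single_sub']
    · intro i j k l
      rw [mul_sub, sub_mul, map_sub,
        Phi0_mon' M F i j k (l + 1) (Sum.inr (q, ρ))
          (P := live M i j k (l + 1) (Sum.inr (q, ρ)))
          (by unfold mon; rw [pow_add]; ring) Iff.rfl,
        Phi0_mon' M F i (j + M.a q ρ false) k l (Sum.inr (q, ρ))
          (P := live M i j k (l + 1) (Sum.inr (q, ρ)))
          (by unfold mon; rw [pow_add]; ring) ?_, sub_self]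
      unfold live
      simp only
      rw [show j + M.a q ρ false + M.a q ρ false * l + M.b q ρ false
        = j + M.a q ρ false * (l + 1) + M.b q ρ false by ring]
  r6 := by
    classical
    intro q ρ q' hq'
    rw [← map_pow, ← map_pow, ← map_mul, ← map_mul, ← map_mul, ← map_mul, mk_eq]
    refine con20 M F (m := X (ly M q ρ) * X (lZ M) - X (la M) ^ M.b q ρ true
      * (X (lc M) ^ M.b q ρ false * (X (lx M q') * X (lZ M)))) ?_ ?_
    · rw [map_sub, map_mul, map_mul, map_mul, map_mul, map_pow, map_pow, hh_a, hh_s, hh_s, hh_c,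
        hh_Z, Matrix.single_mul_single_same, Matrix.single_mul_single_same, pow_single_mul,
        pow_single_mul, single_sub']
    · intro i j
      rw [mul_sub, map_sub,
        Phi0_mon' M F i j 0 0 (Sum.inr (q, ρ)) (P := live M i j 0 0 (Sum.inr (q, ρ)))
          (by unfold mon; ring) Iff.rfl,
        Phi0_mon' M F (i + M.b q ρ true) (j + M.b q ρ false) 0 0 (Sum.inl q')
          (P := live M i j 0 0 (Sum.inr (q, ρ)))
          (by unfold mon; rw [pow_add, pow_add]; ring) ?_, sub_self]
      unfold live
      simp only [hq', mul_zero, add_zero]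
  r7 := by
    classical
    intro q ρ hn
    rw [← map_mul, ← map_zero (mk M F), mk_eq]
    refine con20 M F (m := X (ly M q ρ) * X (lZ M)) ?_ ?_
    · rw [sub_zero, map_mul, hh_s, hh_Z, Matrix.single_mul_single_same]
    · intro i j
      rw [Phi0_mon' M F i j 0 0 (Sum.inr (q, ρ)) (P := False) (by unfold mon; ring) ?_,
        if_neg not_false]
      unfold live
      simp only [hn, iff_false, not_not]
      exact Sys.Halts.stop _

/-- the word of a configuration from which the machine never halts is nonzero -/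
theorem word_ne (q : Q) (n : Bool → ℕ) (h : ¬ M.Halts (some q) n) :
    mk M F (io M F (lA M)) * (mk M F (io M F (la M)) ^ n true *
      (mk M F (io M F (lc M)) ^ n false * (mk M F (io M F (lx M q)) * mk M F (io M F (lZ M)))))
      ≠ 0 := by
  classical
  rw [← map_pow, ← map_pow, ← map_mul, ← map_mul, ← map_mul, ← map_mul, ← map_zero (mk M F)]
  rw [Ne, mk_eq, con_iff]
  intro h1
  have h2 := h1 1 1
  rw [one_mul, mul_one, sub_zero, map_mul, map_mul, map_mul, map_mul, map_pow, map_pow, hh_A, hh_a,
    hh_c, hh_s, hh_Z, Matrix.single_mul_single_same, pow_single_mul, pow_single_mul,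
    Matrix.single_mul_single_same, Matrix.single_apply_same,
    Phi0_mon' M F (n true) (n false) 0 0 (Sum.inl q) (P := True) (by unfold mon; ring) ?_,
    if_pos trivial] at h2
  · exact one_ne_zero h2
  · unfold live
    simp only [mul_zero, add_zero, iff_true]
    rw [cnt_eta]
    exact h

/-- the model satisfies the identities of the triangular matrices -/
theorem ident [Infinite F] (r : FreeAlgebra F ℕ)
    (h : ∀ A : ℕ → Matrix (Fin 4) (Fin 4) F, (∀ i, Tri4 (A i)) → FreeAlgebra.lift F A r = 0)
    (v : ℕ → TT M F) : FreeAlgebra.lift F v r = 0 := by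
  choose w hw using fun i => mk_surj M F (v i)
  have e : FreeAlgebra.lift F v r = mk M F (FreeAlgebra.lift F w r) := by
    have : FreeAlgebra.lift F v = (mk M F).comp (FreeAlgebra.lift F w) := by
      apply FreeAlgebra.hom_ext
      funext i
      simp [hw]
    rw [this]; rfl
  rw [e, ← map_zero (mk M F), mk_eq]
  refine con0 M F ?_
  have e2 : hh M F (FreeAlgebra.lift F w r) = FreeAlgebra.lift F (fun i => hh M F (w i)) r := by
    have : FreeAlgebra.lift F (fun i => hh M F (w i)) = (hh M F).comp (FreeAlgebra.lift F w) := by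
      apply FreeAlgebra.hom_ext
      funext i
      simp
    rw [this]; rfl
  rw [sub_zero, e2]
  exact tri4_ext r h _ fun i => (Inv.hh (w i)).tri

/-- the model satisfies the standard identities -/
theorem stdT {n : ℕ} (hn : 6 ≤ n) (v : Fin n → TT M F) : std v = 0 := by
  choose w hw using fun i => mk_surj M F (v i)
  have e : std v = mk M F (std w) := by
    have := std_map (mk M F : FreeAlgebra F (Gn Q M.B) →ₐ[F] TT M F).toRingHom w
    have e2 : (fun i => (mk M F : FreeAlgebra F (Gn Q M.B) →ₐ[F] TT M F).toRingHom (w i)) = v := by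
      funext i; exact hw i
    rw [e2] at this
    exact this.symm
  rw [e, ← map_zero (mk M F), mk_eq]
  refine con0 M F ?_
  rw [sub_zero]
  have := std_map (hh M F : FreeAlgebra F (Gn Q M.B) →ₐ[F] _).toRingHom w
  refine this.trans (std_tri4 hn _ fun i => ?_)
  exact (Inv.hh (w i)).tri

end

end Pool.Agent.T6.H41.EP
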